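import Pool.Agent.Lib.MP_8f66f0_al_ZT2.Dim
import Pool.Agent.Lib.MP_8f66f0_al_FH.KAll
import Pool.Agent.Lib.MP_8f66f0_al_FH.CFin
import Pool.Agent.Lib.MP_8f66f0_al_FH.CBasic

/-! PROJECT ZERO, part T2: automorphisms which are controlled over a simplicial complex of
dimension at most `K - 1` are killed, if the stabilizers of the simplices are in `KK`. -/

set_option autoImplicit false

namespace Pool.Agent.ZT2

open Pool.Agent.FH Pool.Agent.Wald Pool.Agent.WaldL Pool.Agent.Ind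

/-- Barycentric coordinates of a point of the realization. -/
def IsPt {V : Type} (Sx : Set (Finset V)) (x : V → ℝ) : Prop :=
  ∃ s ∈ Sx, (∀ v, 0 ≤ x v) ∧ (∀ v, x v ≠ 0 → v ∈ s) ∧ ∑ v ∈ s, x v = 1

/-- **Part T2.** -/
def S_T2 : Prop :=
  ∀ K : ℕ, ∃ ε : ℝ, 0 < ε ∧ ∀ (G V : Type) [Group G] [MulAction G V] [DecidableEq V]
    (Sx : Set (Finset V)), SCx G Sx K →
    (∀ s ∈ Sx, s.Nonempty → ∀ U : Subgroup G, (∀ g ∈ U, s.image (g • ·) = s) → KK U) →
    ∀ (L : Type) [CommRing L] [IsDomain L], IsEuc L →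
    ∀ (n m : Type) [Fintype n] [DecidableEq n] [Fintype m] [DecidableEq m] (p : n → V → ℝ)
      (q : m → V → ℝ) (a : Matrix n m (MonoidAlgebra L G)) (a' : Matrix m n (MonoidAlgebra L G)),
      (∀ i, IsPt Sx (p i)) → (∀ k, IsPt Sx (q k)) → a * a' = 1 → a' * a = 1 →
      (∀ i k (γ : G), (a i k).coeff γ ≠ 0 → ∀ v, |p i v - q k (γ⁻¹ • v)| ≤ ε) →
      (∀ k i (γ : G), (a' k i).coeff γ ≠ 0 → ∀ v, |q k v - p i (γ⁻¹ • v)| ≤ ε) →
      ∀ (C : Type) [CommGroup C] (κ : K1Fun (MonoidAlgebra L G) C), KU κ →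
      ∀ e : n ≃ m, κ.f (a.submatrix id e) = 1

theorem mon_kill {L : Type} [CommRing L] {G C : Type} [Group G] [CommGroup C] [IsDomain L]
    (hL : IsEuc L) (κ : K1Fun (MonoidAlgebra L G) C) (hκ : KU κ) {n : Type} [Fintype n]
    [DecidableEq n] (σ : n ≃ n) (γ : n → G) : IsUnit (mon L σ γ) ∧ κ.f (mon L σ γ) = 1 := by
  obtain ⟨h1, h2⟩ := perm_kill hL κ hκ σ
  have h3 : mon L σ γ = (Matrix.diagonal fun i : n => (MonoidAlgebra.single (γ i) (1 : L))) *
      (1 : Matrix n n (MonoidAlgebra L G)).submatrix id σ.symm := by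
    rw [mon_eq]
    have h4 := Matrix.submatrix_mul_equiv
      (Matrix.diagonal fun i : n => (MonoidAlgebra.single (γ i) (1 : L)))
      (1 : Matrix n n (MonoidAlgebra L G)) id (Equiv.refl n) σ.symm
    rw [Matrix.mul_one] at h4
    exact h4.symm
  rw [h3]
  exact ⟨(dg_unit γ).mul h1, by rw [κ.mul _ _ (dg_unit γ) h1, dg_kill κ hκ, h2, one_mul]⟩

/-- Different bases of the source and the target. -/
theorem two_kill {L : Type} [CommRing L] {G X C : Type} [Group G] [MulAction G X] [CommGroup C]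
    [IsDomain L] (hL : IsEuc L) (κ : K1Fun (MonoidAlgebra L G) C) (hκ : KU κ) (N : Met G X)
    {n m : Type} [Fintype n] [DecidableEq n] [Fintype m] [DecidableEq m] (p : n → X) (q : m → X)
    (a : Matrix n m (MonoidAlgebra L G)) (a' : Matrix m n (MonoidAlgebra L G)) (h1 : a * a' = 1)
    (h2 : a' * a = 1) (ha : SupR (N.near 1) p q a) (ha' : SupR (N.near 1) q p a')
    (hk : ∀ b b' : Matrix n n (MonoidAlgebra L G), b * b' = 1 → b' * b = 1 →
      SupR (N.near 2) p p b → SupR (N.near 2) p p b' → κ.f b = 1) (e : n ≃ m) :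
    κ.f (a.submatrix id e) = 1 := by
  have c1 : a.submatrix id e * a'.submatrix e id = 1 := by
    rw [Matrix.submatrix_mul_equiv, h1]
    rfl
  have c2 : a'.submatrix e id * a.submatrix id e = 1 := by
    have := Matrix.submatrix_mul_equiv a' a e (Equiv.refl n) e
    rw [h2, Matrix.submatrix_one_equiv] at this
    exact this
  obtain ⟨τ, γ, hτ⟩ := all_hall L G n (a.submatrix id e) (a'.submatrix e id) c1 c2
  have d1 : ∀ i, N.near 1 (p i) (γ i • q ((τ.trans e) i)) := fun i =>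
    ha i (e (τ i)) (γ i) (hτ i)
  have m1 := mon_mul_moni (L := L) (τ.trans e) γ
  have m2 := moni_mul_mon (L := L) (τ.trans e) γ
  have e1 : (a * moni L (τ.trans e) γ) * (mon L (τ.trans e) γ * a') = 1 := by
    rw [Matrix.mul_assoc, ← Matrix.mul_assoc (moni L (τ.trans e) γ), m2, Matrix.one_mul, h1]
  have e2 : (mon L (τ.trans e) γ * a') * (a * moni L (τ.trans e) γ) = 1 := by
    rw [Matrix.mul_assoc, ← Matrix.mul_assoc a', h2, Matrix.one_mul, m1]
  have s1 : SupR (N.near 1) p q (mon L (τ.trans e) γ) := supR_mon _ _ d1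
  have s2 : SupR (N.near 1) q p (moni L (τ.trans e) γ) :=
    supR_moni (fun _ _ h => N.symm h) (fun g _ _ h => N.inv g h) _ _ d1
  have e3 := hk _ _ e1 e2 (SupR.near_mul ha s2) (SupR.near_mul s1 ha')
  obtain ⟨u1, u2⟩ := mon_kill hL κ hκ τ γ
  have e4 : a.submatrix id e = (a * moni L (τ.trans e) γ) * mon L τ γ := by
    have e5 : mon L τ γ = (mon L (τ.trans e) γ).submatrix id e := by
      refine Matrix.ext fun i k => ?_
      rw [Matrix.submatrix_apply, mon, mon]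
      change (if τ i = k then _ else _) = if e (τ i) = e k then _ else _
      by_cases h : τ i = k
      · rw [if_pos h, if_pos (by rw [h])]
        rfl
      · rw [if_neg h, if_neg fun h' => h (e.injective h')]
    have e6 := Matrix.submatrix_mul_equiv (a * moni L (τ.trans e) γ) (mon L (τ.trans e) γ) id
      (Equiv.refl n) e
    rw [Matrix.mul_assoc, m2, Matrix.mul_one] at e6
    rw [e5]
    exact e6.symm
  rw [e4, κ.mul _ _ ⟨⟨_, _, e1, e2⟩, rfl⟩ u1, e3, u2, one_mul]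

section Floor

variable {V : Type}

/-- Integer coordinates. -/
noncomputable def flr (P : ℕ) (x : V → ℝ) : ZPt V := fun v => ⌊(P : ℝ) * x v⌋

theorem flr_near {P : ℕ} (hP : 0 < P) {x y : ℝ} (h : |x - y| ≤ 1 / (P : ℝ)) :
    |⌊(P : ℝ) * x⌋ - ⌊(P : ℝ) * y⌋| ≤ 1 := by
  have hP' : (0 : ℝ) < P := by exact_mod_cast hP
  rw [abs_le] at h
  have h1 : (P : ℝ) * (1 / P) = 1 := by
    rw [mul_one_div, div_self hP'.ne']
  have h2 : (P : ℝ) * x ≤ P * y + 1 := by
    have := mul_le_mul_of_nonneg_left (show x ≤ y + 1 / P by linarith [h.2]) hP'.le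
    rw [mul_add, h1] at this
    exact this
  have h3 : (P : ℝ) * y ≤ P * x + 1 := by
    have := mul_le_mul_of_nonneg_left (show y ≤ x + 1 / P by linarith [h.1]) hP'.le
    rw [mul_add, h1] at this
    exact this
  have h4 := Int.floor_le_floor h2
  have h5 := Int.floor_le_floor h3
  rw [Int.floor_add_one] at h4 h5
  rw [abs_le]
  constructor <;> omega

theorem flr_mem {Sx : Set (Finset V)} {K c : ℕ} (hK : ∀ s ∈ Sx, s.card ≤ K) {x : V → ℝ}
    (hx : IsPt Sx x) (a w : ℤ) (hw : 0 ≤ w) :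
    flr ((K + 1) * c) x ∈ RR Sx (c : ℤ) a w (K + 1) := by
  obtain ⟨s, hs, h0, h1, h2⟩ := hx
  have h3 : ∀ v, flr ((K + 1) * c) x v ≠ 0 → v ∈ s := by
    intro v hv
    refine h1 v fun h => hv ?_
    change ⌊_ * x v⌋ = 0
    rw [h, mul_zero, Int.floor_zero]
  refine ⟨⟨s, hs, h3⟩, ?_, ?_⟩
  · obtain ⟨v, hv⟩ : ∃ v, 1 ≤ ((K : ℝ) + 1) * x v := by
      by_contra hc
      push Not at hc
      have h4 : ((K : ℝ) + 1) * ∑ v ∈ s, x v ≤ s.card := by
        rw [Finset.mul_sum]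
        calc ∑ v ∈ s, ((K : ℝ) + 1) * x v ≤ ∑ _v ∈ s, (1 : ℝ) :=
              Finset.sum_le_sum fun v _ => (hc v).le
          _ = s.card := by simp
      have h5 : (s.card : ℝ) ≤ K := by exact_mod_cast hK s hs
      rw [h2] at h4
      linarith
    refine ⟨v, ?_⟩
    refine le_trans ?_ (le_abs_self _)
    change (c : ℤ) ≤ ⌊_ * x v⌋
    rw [Int.le_floor]
    push_cast
    have h4 : (0 : ℝ) ≤ c := Nat.cast_nonneg c
    calc (c : ℝ) = c * 1 := (mul_one _).symm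
      _ ≤ c * (((K : ℝ) + 1) * x v) := mul_le_mul_of_nonneg_left hv h4
      _ = _ := by ring
  · have h4 : {v | ¬ Nr a w (flr ((K + 1) * c) x v)} ⊆ (s : Set V) := by
      intro v hv
      refine h3 v fun h => hv ?_
      rw [h]
      exact nr_zero hw
    have h5 := Set.ncard_le_ncard h4 s.finite_toSet
    rw [Set.ncard_coe_finset] at h5
    have := hK s hs
    omega

end Floor

theorem t2 : S_T2 := by
  intro K
  obtain ⟨Λ, k, h⟩ := K_all (K + 1) 4 (by norm_num)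
  refine ⟨1 / (((K + 1) * (2 ^ (Λ + 1) + 1) : ℕ) : ℝ), by positivity, ?_⟩
  intro G V _ _ _ Sx hS hKK L _ _ hL n m _ _ _ _ p q a a' hp hq h1 h2 ha ha' C _ κ hκ e
  have hP : 0 < (K + 1) * (2 ^ (Λ + 1) + 1) := by positivity
  have hsm : ∀ U : Subgroup G, Sm G Sx U → KK U := by
    rintro U ⟨s, hs, hs0, hU⟩
    exact hKK s hs hs0 U hU
  have hsub : ∀ U W : Subgroup G, U ≤ W → Sm G Sx W → Sm G Sx U := by
    rintro U W hUW ⟨s, hs, hs0, hW⟩
    exact ⟨s, hs, hs0, fun g hg => hW g (hUW hg)⟩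
  have hΛ : Λ * 2 ≤ 2 ^ (Λ + 1) := by
    have h3 : Λ < 2 ^ Λ := Nat.lt_two_pow_self
    have h4 : 2 ^ (Λ + 1) = 2 * 2 ^ Λ := by ring
    omega
  have hc : (2 : ℤ) ^ (Λ + 1) < ((2 ^ (Λ + 1) + 1 : ℕ) : ℤ) := by
    push_cast
    linarith
  refine two_kill hL κ hκ (zMet G V) (fun i => flr ((K + 1) * (2 ^ (Λ + 1) + 1)) (p i))
    (fun i => flr ((K + 1) * (2 ^ (Λ + 1) + 1)) (q i)) a a' h1 h2 ?_ ?_ ?_ e
  · intro i k' γ hγ v
    exact flr_near hP (ha i k' γ hγ v)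
  · intro i k' γ hγ v
    exact flr_near hP (ha' i k' γ hγ v)
  · intro b b' b1 b2 b3 b4
    exact (triv_kill hL κ hκ (Sm G Sx) hsm (zMet G V) _ _
      (h G (ZPt V) (Sm G Sx) (zMet G V)
        (RR Sx ((2 ^ (Λ + 1) + 1 : ℕ) : ℤ) ((2 : ℤ) ^ (Λ + 1)) ((2 : ℕ) : ℤ) (K + 1)) 2
        (2 ^ (Λ + 1)) L hL hsub hsm (rr_inv hS _ _ _ _)
        (dim_rr hS le_rfl _ (K + 1) (Λ + 1) 2 (by norm_num) hc) hΛ n _ b b'
        (fun i => ⟨_, flr_mem hS.card (hp i) _ _ (by norm_num), (zMet G V).refl _ _⟩) b1 b2 b3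
        b4)).2

end Pool.Agent.ZT2
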