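import Pool.Agent.Lib.MP_8f66f0_al_ZT2.Wall
import Pool.Agent.Lib.MP_8f66f0_al_FH.CDefs

/-! PROJECT ZERO, part T2: the dimension of a simplicial complex (integer barycentric coordinates,
maximum norm) in the sense of `FH.Dim`. -/

set_option autoImplicit false

namespace Pool.Agent.ZT2

open Pool.Agent.FH

/-- `Sx` is the set of the simplices of a complex with the set of vertices `V` (the empty set is
allowed), of dimension at most `K - 1`, with an action of `G`. -/
structure SCx (G : Type) {V : Type} [Group G] [MulAction G V] [DecidableEq V]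
    (Sx : Set (Finset V)) (K : ℕ) : Prop where
  sub : ∀ s ∈ Sx, ∀ t ⊆ s, t.Nonempty → t ∈ Sx
  card : ∀ s ∈ Sx, s.card ≤ K
  inv : ∀ (g : G), ∀ s ∈ Sx, s.image (g • ·) ∈ Sx

/-- The subgroups which stabilize a non-empty simplex. -/
def Sm (G : Type) {V : Type} [Group G] [MulAction G V] [DecidableEq V] (Sx : Set (Finset V))
    (U : Subgroup G) : Prop := ∃ s ∈ Sx, s.Nonempty ∧ ∀ g ∈ U, s.image (g • ·) = s

/-- Integer vectors. -/
def ZPt (V : Type) : Type := V → ℤ

instance instZPt {G V : Type} [Group G] [MulAction G V] : MulAction G (ZPt V) where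
  smul g x := fun v => x (g⁻¹ • v)
  one_smul x := by
    funext v
    change x ((1 : G)⁻¹ • v) = x v
    rw [inv_one, one_smul]
  mul_smul g h x := by
    funext v
    change x ((g * h)⁻¹ • v) = x (h⁻¹ • g⁻¹ • v)
    rw [mul_inv_rev, mul_smul]

variable {G V : Type} [Group G] [MulAction G V]

theorem zsmul_apply (g : G) (x : ZPt V) (v : V) : (g • x) v = x (g⁻¹ • v) := rfl

variable (G V) in
/-- The maximum distance. -/
def zMet : Met G (ZPt V) where
  near r x y := ∀ v : V, |x v - y v| ≤ (r : ℤ)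
  refl r x v := by
    rw [sub_self, abs_zero]
    exact Int.natCast_nonneg r
  symm h v := by
    rw [abs_sub_comm]
    exact h v
  trans {r s x y z} h h' v := by
    have h1 := abs_sub_le (x v) (y v) (z v)
    have h2 := h v
    have h3 := h' v
    push_cast
    linarith
  mono {r s x y} h h' v := by
    have h2 := h' v
    have : (r : ℤ) ≤ s := by exact_mod_cast h
    linarith
  inv {r x y} g h v := h (g⁻¹ • v)

variable (G) in
/-- The same label in every coordinate. -/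
def zEqr (a w a' : ℤ) : Eqr G (ZPt V) where
  rel x y := ∀ v : V, lb a w a' (x v) = lb a w a' (y v)
  refl _ _ := rfl
  symm h v := (h v).symm
  trans h h' v := (h v).trans (h' v)
  inv g h v := h (g⁻¹ • v)

/-- The vectors whose support is in a simplex, with a coordinate of absolute value at least `c`,
with less than `j` coordinates which are not within `w` of the multiples of `a`. -/
def RR (Sx : Set (Finset V)) (c a w : ℤ) (j : ℕ) : Set (ZPt V) :=
  {x | (∃ s ∈ Sx, ∀ v, x v ≠ 0 → v ∈ s) ∧ (∃ v, c ≤ |x v|) ∧ {v | ¬ Nr a w (x v)}.ncard < j}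

omit [MulAction G V] in
theorem far_fin {Sx : Set (Finset V)} {x : ZPt V} (h : ∃ s ∈ Sx, ∀ v, x v ≠ 0 → v ∈ s) {a w : ℤ}
    (hw : 0 ≤ w) : {v | ¬ Nr a w (x v)}.Finite := by
  obtain ⟨s, _, hs⟩ := h
  refine Set.Finite.subset s.finite_toSet fun v hv => ?_
  refine hs v fun h0 => hv ?_
  rw [h0]
  exact nr_zero hw

theorem rr_inv [DecidableEq V] {Sx : Set (Finset V)} {K : ℕ} (hS : SCx G Sx K) (c a w : ℤ)
    (j : ℕ) : InvS G (RR Sx c a w j : Set (ZPt V)) := by
  rintro g x ⟨⟨s, hs, h1⟩, ⟨v, hv⟩, h3⟩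
  refine ⟨⟨s.image (g • ·), hS.inv g s hs, fun v hv => ?_⟩, ⟨g • v, ?_⟩, ?_⟩
  · rw [Finset.mem_image]
    exact ⟨g⁻¹ • v, h1 _ hv, smul_inv_smul g v⟩
  · rw [zsmul_apply, inv_smul_smul]
    exact hv
  · have h4 : {v | ¬ Nr a w ((g • x) v)} = (g • ·) '' {v | ¬ Nr a w (x v)} := by
      ext v
      constructor
      · intro hv
        exact ⟨g⁻¹ • v, hv, smul_inv_smul g v⟩
      · rintro ⟨u, hu, rfl⟩
        change ¬ Nr a w (x (g⁻¹ • g • u))
        rw [inv_smul_smul]
        exact hu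
    rw [h4, Set.ncard_image_of_injective _ (MulAction.injective g)]
    exact h3

omit [MulAction G V] in
theorem zpiece {Sx : Set (Finset V)} {c a a' w s t : ℤ} (ha : 0 < a) (ha' : 0 < a')
    (hd : a' ∣ a) (hs : w + t ≤ s) (ht : 2 * w + t < a) (ht0 : 0 ≤ t) (hw : 0 ≤ w) {j : ℕ}
    {x y : ZPt V} (hx : x ∈ RR Sx c a w (j + 1)) (hy : y ∈ RR Sx c a w (j + 1))
    (hx' : x ∉ RR Sx c a' s j) (hy' : y ∉ RR Sx c a' s j) (hxy : ∀ v, |x v - y v| ≤ t) (v : V) :
    lb a w a' (x v) = lb a w a' (y v) := by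
  have key : ∀ z : ZPt V, z ∈ RR Sx c a w (j + 1) → z ∉ RR Sx c a' s j → ∀ v, Nr a' s (z v) →
      Nr a w (z v) := by
    intro z hz hz' v hv
    have hsub : {v | ¬ Nr a' s (z v)} ⊆ {v | ¬ Nr a w (z v)} := by
      intro u hu hu'
      exact hu (nr_mono hd hu' (t := 0) (by simp) (by linarith))
    have hz1 := hz.2.2
    have hz2 : ¬ {v | ¬ Nr a' s (z v)}.ncard < j := fun h => hz' ⟨hz.1, hz.2.1, h⟩
    have heq := Set.eq_of_subset_of_ncard_le hsub (by omega) (far_fin hz.1 hw)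
    by_contra hc
    have : v ∈ {v | ¬ Nr a' s (z v)} := by
      rw [heq]
      exact hc
    exact this hv
  by_cases h1 : Nr a w (x v)
  · have h2 : Nr a w (y v) := key y hy hy' v (nr_mono hd h1 (hxy v) hs)
    exact lb_near ha h1 h2 ht (hxy v)
  · have h2 : ¬ Nr a w (y v) := fun h2 => h1 (key x hx hx' v
      (nr_mono hd h2 (by rw [abs_sub_comm]; exact hxy v) hs))
    exact lb_far ha' h1 h2 (fun g => h1 (key x hx hx' v g))
      (fun g => h2 (key y hy hy' v g)) (by linarith) (hxy v)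

/-- The stabilizer of a piece stabilizes a simplex. -/
theorem zstab [DecidableEq V] {Sx : Set (Finset V)} {K : ℕ} (hS : SCx G Sx K) {c a a' w d : ℤ}
    (ha : 0 < a) (ha' : 0 < a') (h1 : 2 * w ≤ d) (h2 : a' ≤ d) (hc : d < c) {x : ZPt V}
    (hx : ∃ s ∈ Sx, ∀ v, x v ≠ 0 → v ∈ s) (hx' : ∃ v, c ≤ |x v|) :
    Sm G Sx ((zEqr G a w a' : Eqr G (ZPt V)).st x) := by
  classical
  obtain ⟨s, hs, h3⟩ := hx
  obtain ⟨v₀, hv₀⟩ := hx'
  have h4 : ∀ v, lb a w a' (x v) ≠ lb a w a' 0 → v ∈ s := by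
    intro v hv
    exact h3 v fun h0 => hv (by rw [h0])
  have h5 : v₀ ∈ s.filter fun v => lb a w a' (x v) ≠ lb a w a' 0 := by
    have h6 : lb a w a' (x v₀) ≠ lb a w a' 0 := by
      intro h
      have := lb_dist ha ha' h1 h2 h
      rw [sub_zero] at this
      linarith
    exact Finset.mem_filter.2 ⟨h4 v₀ h6, h6⟩
  refine ⟨s.filter fun v => lb a w a' (x v) ≠ lb a w a' 0,
    hS.sub s hs _ (Finset.filter_subset _ _) ⟨v₀, h5⟩, ⟨v₀, h5⟩, ?_⟩
  have h6 : ∀ g ∈ (zEqr G a w a' : Eqr G (ZPt V)).st x,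
      ∀ v, v ∈ (s.filter fun v => lb a w a' (x v) ≠ lb a w a' 0) →
        g • v ∈ (s.filter fun v => lb a w a' (x v) ≠ lb a w a' 0) := by
    intro g hg v hv
    rw [Finset.mem_filter] at hv ⊢
    have h7 : lb a w a' (x (g • v)) = lb a w a' (x (g⁻¹ • g • v)) := hg (g • v)
    rw [inv_smul_smul] at h7
    have h8 : lb a w a' (x (g • v)) ≠ lb a w a' 0 := by
      rw [h7]
      exact hv.2
    exact ⟨h4 _ h8, h8⟩
  intro g hg
  ext v
  rw [Finset.mem_image]
  constructor
  · rintro ⟨u, hu, rfl⟩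
    exact h6 g hg u hu
  · intro hv
    exact ⟨g⁻¹ • v, h6 g⁻¹ (Subgroup.inv_mem _ hg) v hv, smul_inv_smul g v⟩

theorem dim_rr [DecidableEq V] {Sx : Set (Finset V)} {K : ℕ} (hS : SCx G Sx K) {f : ℕ}
    (hf : 4 ≤ f) (c : ℤ) : ∀ j i w : ℕ, 1 ≤ w → (2 : ℤ) ^ i < c →
      Dim (Sm G Sx) (zMet G V) f j (RR Sx c ((2 : ℤ) ^ i) w j) w (2 ^ i) := by
  intro j
  induction j with
  | zero =>
    intro i w _ _
    change (RR Sx c ((2 : ℤ) ^ i) w 0 : Set (ZPt V)) = ∅
    refine Set.eq_empty_of_forall_notMem fun x hx => ?_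
    exact absurd hx.2.2 (Nat.not_lt_zero _)
  | succ j ih =>
    intro i w hw hc t' d h1 h2 h3
    have hft : 4 * t' ≤ f * t' := Nat.mul_le_mul_right _ hf
    have hd4 : 4 ≤ d := by omega
    obtain ⟨e, he⟩ : ∃ e, Nat.log 2 d = e + 1 := by
      have : 2 ≤ Nat.log 2 d := by
        have h5 := Nat.log_mono_right (b := 2) hd4
        have h6 : Nat.log 2 4 = 2 := by
          have : Nat.log 2 (2 ^ 2) = 2 := Nat.log_pow (by norm_num) 2
          simpa using this
        omega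
      exact ⟨Nat.log 2 d - 1, by omega⟩
    have e1 : 2 ^ (e + 1) ≤ d := by
      rw [← he]
      exact Nat.pow_log_le_self 2 (by omega)
    have e2 : d < 2 ^ (e + 2) := by
      have := Nat.lt_pow_succ_log_self (b := 2) (by norm_num) d
      rw [he] at this
      exact this
    have e3 : e + 1 ≤ i := by
      by_contra hc
      have : 2 ^ (i + 1) ≤ 2 ^ (e + 1) := Nat.pow_le_pow_right (by norm_num) (by omega)
      have h5 : 2 ^ (i + 1) = 2 * 2 ^ i := by ring
      have h6 : 0 < 2 ^ i := by positivity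
      omega
    have e5 : 2 ^ (e + 1) = 2 * 2 ^ e := by ring
    have e6 : 2 ^ (e + 2) = 4 * 2 ^ e := by ring
    have ha : (0 : ℤ) < 2 ^ i := by positivity
    have ha' : (0 : ℤ) < 2 ^ e := by positivity
    have hdvd : (2 : ℤ) ^ e ∣ 2 ^ i := pow_dvd_pow _ (by omega)
    have g1 : 2 * (w : ℤ) ≤ d := by
      have : 2 * w ≤ d := by omega
      exact_mod_cast this
    have g2 : (2 : ℤ) ^ e ≤ d := by
      have : 2 ^ e ≤ d := by omega
      exact_mod_cast this
    have g3 : 2 * (w : ℤ) + t' < 2 ^ i := by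
      have : 2 * w + t' < 2 ^ i := by omega
      exact_mod_cast this
    have g4 : (w : ℤ) + t' ≤ (2 * t' : ℕ) := by
      have : w + t' ≤ 2 * t' := by omega
      exact_mod_cast this
    have g5 : (d : ℤ) < c := by
      have : (d : ℤ) ≤ 2 ^ i := by exact_mod_cast h3
      linarith
    have g6 : (2 : ℤ) ^ e < c := by linarith
    refine ⟨zEqr G (2 ^ i) w (2 ^ e), RR Sx c ((2 : ℤ) ^ e) ((2 * t' : ℕ) : ℤ) j, 2 * t', 2 ^ e,
      rr_inv hS _ _ _ _, ?_, ?_, ?_, ?_, ?_, ?_⟩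
    · exact Nat.mul_le_mul_right _ (by omega)
    · have : 4 * 2 ^ e ≤ f * 2 ^ e := Nat.mul_le_mul_right _ hf
      omega
    · intro x y hx hx' hy hy' hxy v
      exact zpiece ha ha' hdvd g4 g3 (Int.natCast_nonneg _) (Int.natCast_nonneg _) hx hy
        hx' hy' hxy v
    · intro x y _ _ _ _ hxy v
      exact lb_dist ha ha' g1 g2 (hxy v)
    · intro x hx _
      exact zstab hS ha ha' g1 g2 g5 hx.1 hx.2.1
    · exact ih e (2 * t') (by omega) g6

end Pool.Agent.ZT2
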