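import Mathlib

/-! PROJECT ZERO, part T2: walls of the level `a` on the line are the multiples of `a`. -/

set_option autoImplicit false

namespace Pool.Agent.ZT2

/-- `z` is within `w` of a multiple of `a`. -/
def Nr (a w z : ℤ) : Prop := ∃ u, a ∣ u ∧ |z - u| ≤ w

/-- The largest multiple of `a` which is at most `z`. -/
def fl (a z : ℤ) : ℤ := a * (z / a)

open Classical in
/-- The label of a coordinate: the wall of the level `a` which is close, or the box of the
level `a'`. -/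
noncomputable def lb (a w a' z : ℤ) : Bool × ℤ :=
  if Nr a w z then (true, fl a (z + w)) else (false, fl a' z)

section

variable {a a' w s t : ℤ}

theorem fl_dvd (a z : ℤ) : a ∣ fl a z := Dvd.intro _ rfl

theorem fl_le (ha : 0 < a) (z : ℤ) : fl a z ≤ z := Int.mul_ediv_self_le ha.ne'

theorem lt_fl (ha : 0 < a) (z : ℤ) : z < fl a z + a := by
  have h := Int.lt_mul_ediv_self_add (x := z) ha
  exact h

theorem le_fl (ha : 0 < a) {u z : ℤ} (hu : a ∣ u) (h : u ≤ z) : u ≤ fl a z := by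
  obtain ⟨c, rfl⟩ := hu
  refine mul_le_mul_of_nonneg_left ?_ ha.le
  rw [Int.le_ediv_iff_mul_le ha]
  linarith [mul_comm a c]

/-- The close wall. -/
theorem nr_close (ha : 0 < a) {z : ℤ} (hn : Nr a w z) : |z - fl a (z + w)| ≤ w := by
  obtain ⟨u, hu, hz⟩ := hn
  have h2 := fl_le ha (z + w)
  rw [abs_le] at hz ⊢
  have := le_fl ha hu (show u ≤ z + w by linarith [hz.1])
  constructor <;> linarith [hz.2]

theorem lb_dist (ha : 0 < a) (ha' : 0 < a') {d z z' : ℤ} (h1 : 2 * w ≤ d) (h2 : a' ≤ d)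
    (he : lb a w a' z = lb a w a' z') : |z - z'| ≤ d := by
  unfold lb at he
  split_ifs at he with g1 g2 g2
  · have e := (Prod.ext_iff.1 he).2
    have e1 := abs_le.1 (nr_close ha g1)
    have e2 := abs_le.1 (nr_close ha g2)
    simp only at e
    rw [e] at e1
    rw [abs_le]
    constructor <;> linarith [e1.1, e1.2, e2.1, e2.2]
  · exact absurd (Prod.ext_iff.1 he).1 (by simp)
  · exact absurd (Prod.ext_iff.1 he).1 (by simp)
  · have e := (Prod.ext_iff.1 he).2
    simp only at e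
    have i2 := fl_le ha' z
    have i3 := lt_fl ha' z
    have j2 := fl_le ha' z'
    have j3 := lt_fl ha' z'
    rw [← e] at j2 j3
    rw [abs_le]
    constructor <;> linarith

theorem wl_gap (ha : 0 < a) {u v : ℤ} (hu : a ∣ u) (hv : a ∣ v) (h : u < v) : u + a ≤ v := by
  obtain ⟨x, rfl⟩ := hu
  obtain ⟨y, rfl⟩ := hv
  have h1 : x < y := lt_of_mul_lt_mul_left h ha.le
  have h2 : a * (x + 1) ≤ a * y := mul_le_mul_of_nonneg_left (by linarith) ha.le
  linarith [mul_add a x 1, mul_one a]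

theorem lb_near (ha : 0 < a) {z z' : ℤ} (h1 : Nr a w z) (h2 : Nr a w z') (ht : 2 * w + t < a)
    (hz : |z - z'| ≤ t) : lb a w a' z = lb a w a' z' := by
  unfold lb
  rw [if_pos h1, if_pos h2]
  refine Prod.ext rfl ?_
  change fl a (z + w) = fl a (z' + w)
  have e1 := abs_le.1 (nr_close ha h1)
  have e2 := abs_le.1 (nr_close ha h2)
  have e3 := abs_le.1 hz
  rcases lt_trichotomy (fl a (z + w)) (fl a (z' + w)) with g | g | g
  · exfalso
    have := wl_gap ha (fl_dvd a _) (fl_dvd a _) g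
    linarith [e1.1, e1.2, e2.1, e2.2, e3.1, e3.2]
  · exact g
  · exfalso
    have := wl_gap ha (fl_dvd a _) (fl_dvd a _) g
    linarith [e1.1, e1.2, e2.1, e2.2, e3.1, e3.2]

theorem fl_far (ha' : 0 < a') {z z' : ℤ} (h1 : ¬ Nr a' s z) (ht : t ≤ s) (hle : z ≤ z')
    (hz : z' - z ≤ t) : fl a' z = fl a' z' := by
  refine le_antisymm (le_fl ha' (fl_dvd _ _) ((fl_le ha' z).trans hle))
    (le_fl ha' (fl_dvd _ _) ?_)
  by_contra hc
  refine h1 ⟨_, fl_dvd a' z', ?_⟩
  have h2 := fl_le ha' z'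
  rw [abs_le]
  constructor <;> linarith

theorem lb_far (ha' : 0 < a') {z z' : ℤ} (h1 : ¬ Nr a w z) (h2 : ¬ Nr a w z')
    (h3 : ¬ Nr a' s z) (h4 : ¬ Nr a' s z') (ht : t ≤ s) (hz : |z - z'| ≤ t) :
    lb a w a' z = lb a w a' z' := by
  unfold lb
  rw [if_neg h1, if_neg h2]
  refine Prod.ext rfl ?_
  change fl a' z = fl a' z'
  have e3 := abs_le.1 hz
  rcases le_total z z' with g | g
  · exact fl_far ha' h3 ht g (by linarith [e3.1])
  · exact (fl_far ha' h4 ht g (by linarith [e3.2])).symm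

theorem nr_mono (hd : a' ∣ a) {z z' : ℤ} (h1 : Nr a w z) (hz : |z - z'| ≤ t) (hs : w + t ≤ s) :
    Nr a' s z' := by
  obtain ⟨u, hu, h⟩ := h1
  refine ⟨u, hd.trans hu, ?_⟩
  rw [abs_le] at hz h ⊢
  constructor <;> linarith [hz.1, hz.2, h.1, h.2]

theorem nr_zero (hw : 0 ≤ w) : Nr a w 0 := ⟨0, dvd_zero a, by rw [sub_zero, abs_zero]; exact hw⟩

end

end Pool.Agent.ZT2
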